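import Pool.Agent.N597.PV.GRule
import Pool.Agent.Helper448.Warren
set_option autoImplicit false

/-!
# Linear programs on products of simplices
-/

namespace Pool.Agent.N597.PV.G

open Finset Matrix MvPolynomial

variable {ι : Type} [Fintype ι] [DecidableEq ι] {κ : ι → Type} [∀ i, Fintype (κ i)]
  [∀ i, DecidableEq (κ i)] {J : Type} [Fintype J] [DecidableEq J]

/-- `{q : A q ≤ b}` is combinatorially a product of simplices, with the vertices `x σ`: for every
choice function `σ` the rows `p` which are not chosen by `σ` (`σ p.1 ≠ p.2`) are satisfied with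
equality by exactly one point `x σ`, and the chosen rows are strict at `x σ`. -/
def ProdLP (A : Sigma κ → J → ℝ) (b : Sigma κ → ℝ) (x : (∀ i, κ i) → J → ℝ) : Prop :=
  ∀ σ : ∀ i, κ i, (∀ p : Sigma κ, σ p.1 ≠ p.2 → A p ⬝ᵥ x σ = b p) ∧
    (∀ p : Sigma κ, σ p.1 = p.2 → A p ⬝ᵥ x σ < b p) ∧
    ∀ q : J → ℝ, (∀ p : Sigma κ, σ p.1 ≠ p.2 → A p ⬝ᵥ q = b p) → q = x σ

lemma card_tight (hJ : Fintype.card (Sigma κ) = Fintype.card J + Fintype.card ι)
    (σ : ∀ i, κ i) : Fintype.card J = Fintype.card {p : Sigma κ // σ p.1 ≠ p.2} := by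
  have h := card_opts univ σ (fun i => mem_univ _)
  rw [card_univ] at h
  have h2 : Fintype.card {p : Sigma κ // σ p.1 ≠ p.2} = (opts univ σ).card := by
    rw [Fintype.card_subtype]; rfl
  omega

/-- numbering of the tight rows -/
noncomputable def eqv (hJ : Fintype.card (Sigma κ) = Fintype.card J + Fintype.card ι)
    (σ : ∀ i, κ i) : J ≃ {p : Sigma κ // σ p.1 ≠ p.2} :=
  Fintype.equivOfCardEq (card_tight hJ σ)

/-- tight rows -/
noncomputable def rowsM (hJ : Fintype.card (Sigma κ) = Fintype.card J + Fintype.card ι)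
    (A : Sigma κ → J → ℝ) (σ : ∀ i, κ i) : Matrix J J ℝ :=
  Matrix.of fun i j => A (eqv hJ σ i).1 j

variable {A : Sigma κ → J → ℝ} {b : Sigma κ → ℝ} {x : (∀ i, κ i) → J → ℝ}

lemma ProdLP.det_ne (h : ProdLP A b x)
    (hJ : Fintype.card (Sigma κ) = Fintype.card J + Fintype.card ι) (σ : ∀ i, κ i) :
    (rowsM hJ A σ).det ≠ 0 := by
  intro h0
  obtain ⟨v, hv, hv0⟩ := Matrix.exists_mulVec_eq_zero_iff.2 h0
  have h1 := (h σ).2.2 (x σ + v) fun p hp => by
    have e : (rowsM hJ A σ *ᵥ v) ((eqv hJ σ).symm ⟨p, hp⟩) = 0 := congrFun hv0 _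
    have e2 : (rowsM hJ A σ *ᵥ v) ((eqv hJ σ).symm ⟨p, hp⟩) = A p ⬝ᵥ v := by
      simp only [mulVec, rowsM]
      congr 1
      funext j
      simp
    rw [dotProduct_add, (h σ).1 p hp, ← e2, e, add_zero]
  apply hv
  simpa using h1

/-- multipliers -/
lemma ProdLP.exists_mult (h : ProdLP A b x)
    (hJ : Fintype.card (Sigma κ) = Fintype.card J + Fintype.card ι) (σ : ∀ i, κ i)
    (c : J → ℝ) : ∃ y : J → ℝ, c = ∑ k, y k • rowsM hJ A σ k := by
  have hu : IsUnit (rowsM hJ A σ).det := isUnit_iff_ne_zero.2 (h.det_ne hJ σ)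
  refine ⟨c ᵥ* (rowsM hJ A σ)⁻¹, ?_⟩
  have e : (c ᵥ* (rowsM hJ A σ)⁻¹) ᵥ* rowsM hJ A σ = c := by
    rw [vecMul_vecMul, nonsing_inv_mul _ hu, vecMul_one]
  conv_lhs => rw [← e]
  rw [vecMul_eq_sum]

lemma dot_mult {hJ : Fintype.card (Sigma κ) = Fintype.card J + Fintype.card ι}
    {σ : ∀ i, κ i} {c y : J → ℝ} (hy : c = ∑ k, y k • rowsM hJ A σ k)
    (d : J → ℝ) : c ⬝ᵥ d = ∑ k, y k * (A (eqv hJ σ k).1 ⬝ᵥ d) := by
  rw [hy, sum_dotProduct]
  refine sum_congr rfl fun k _ => ?_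
  rw [smul_dotProduct, smul_eq_mul]
  rfl

lemma ProdLP.slack_eq (h : ProdLP A b x) {σ τ : ∀ i, κ i} {p : Sigma κ} (hs : σ p.1 ≠ p.2)
    (ht : τ p.1 ≠ p.2) : A p ⬝ᵥ (x τ - x σ) = 0 := by
  rw [dotProduct_sub, (h σ).1 p hs, (h τ).1 p ht, sub_self]

lemma ProdLP.slack_neg (h : ProdLP A b x) {σ τ : ∀ i, κ i} {p : Sigma κ} (hs : σ p.1 ≠ p.2)
    (ht : τ p.1 = p.2) : A p ⬝ᵥ (x τ - x σ) < 0 := by
  rw [dotProduct_sub, (h σ).1 p hs]
  have := (h τ).2.1 p ht
  linarith

lemma ProdLP.slack_le (h : ProdLP A b x) {σ : ∀ i, κ i} (τ : ∀ i, κ i) {p : Sigma κ}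
    (hs : σ p.1 ≠ p.2) : A p ⬝ᵥ (x τ - x σ) ≤ 0 := by
  by_cases ht : τ p.1 = p.2
  · exact (h.slack_neg hs ht).le
  · exact (h.slack_eq hs ht).le

/-- the increase along an edge -/
lemma ProdLP.edge (h : ProdLP A b x)
    {hJ : Fintype.card (Sigma κ) = Fintype.card J + Fintype.card ι} {σ : ∀ i, κ i}
    {c y : J → ℝ} (hy : c = ∑ k, y k • rowsM hJ A σ k) (i : J) :
    c ⬝ᵥ x (sw σ (eqv hJ σ i).1) - c ⬝ᵥ x σ =
      y i * (A (eqv hJ σ i).1 ⬝ᵥ (x (sw σ (eqv hJ σ i).1) - x σ)) := by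
  rw [← dotProduct_sub, dot_mult hy, sum_eq_single i]
  · intro k _ hk
    rw [h.slack_eq (eqv hJ σ k).2, mul_zero]
    set p := (eqv hJ σ i).1 with hp
    set q := (eqv hJ σ k).1 with hq
    have hqp : q ≠ p := by
      intro h
      apply hk
      apply (eqv hJ σ).injective
      exact Subtype.ext h
    by_cases h1 : q.1 = p.1
    · intro h2
      apply hqp
      have e : sw σ p q.1 = cast (by rw [h1]) p.2 := by
        rcases p with ⟨p1, p2⟩
        rcases q with ⟨q1, q2⟩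
        simp only at h1
        subst h1
        simp [sw]
      rcases p with ⟨p1, p2⟩
      rcases q with ⟨q1, q2⟩
      simp only at h1
      subst h1
      simp only [cast_eq] at e
      simp only at h2
      rw [e] at h2
      rw [h2]
    · rw [sw_of_ne _ h1]
      exact (eqv hJ σ k).2
  · intro hi
    exact absurd (mem_univ i) hi

lemma ProdLP.improving_iff (h : ProdLP A b x)
    {hJ : Fintype.card (Sigma κ) = Fintype.card J + Fintype.card ι} {σ : ∀ i, κ i}
    {c y : J → ℝ} (hy : c = ∑ k, y k • rowsM hJ A σ k) (i : J) :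
    c ⬝ᵥ x σ < c ⬝ᵥ x (sw σ (eqv hJ σ i).1) ↔ y i < 0 := by
  have e := h.edge hy i
  have g := h.slack_neg (eqv hJ σ i).2 (sw_self σ (eqv hJ σ i).1)
  constructor
  · intro h1
    have : 0 < y i * (A (eqv hJ σ i).1 ⬝ᵥ (x (sw σ (eqv hJ σ i).1) - x σ)) := by linarith
    by_contra hcon
    nlinarith
  · intro h1
    have := mul_pos_of_neg_of_neg h1 g
    linarith

lemma ProdLP.lg (h : ProdLP A b x)
    (hJ : Fintype.card (Sigma κ) = Fintype.card J + Fintype.card ι) (c : J → ℝ) :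
    LG fun σ => c ⬝ᵥ x σ := by
  intro W σ hσ hloc τ hτ
  obtain ⟨y, hy⟩ := h.exists_mult hJ σ c
  have h1 : ∀ i, (eqv hJ σ i).1 ∈ W → 0 ≤ y i := by
    intro i hi
    by_contra hcon
    have := (h.improving_iff hy i).2 (not_le.1 hcon)
    have := hloc _ hi
    simp only at this
    linarith
  have h2 : c ⬝ᵥ (x τ - x σ) ≤ 0 := by
    rw [dot_mult hy]
    apply sum_nonpos
    intro k _
    by_cases hk : (eqv hJ σ k).1 ∈ W
    · exact mul_nonpos_of_nonneg_of_nonpos (h1 k hk) (h.slack_le τ (eqv hJ σ k).2)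
    · rw [h.slack_eq (eqv hJ σ k).2, mul_zero]
      intro h3
      apply hk
      have := hτ (eqv hJ σ k).1.1
      rw [h3] at this
      exact this
  rw [dotProduct_sub] at h2
  simp only
  linarith

lemma ProdLP.optimal (h : ProdLP A b x)
    (hJ : Fintype.card (Sigma κ) = Fintype.card J + Fintype.card ι) (c : J → ℝ)
    {σ : ∀ i, κ i} (hσ : improving (fun σ => c ⬝ᵥ x σ) σ = ∅) (p : J → ℝ)
    (hp : ∀ r, A r ⬝ᵥ p ≤ b r) : c ⬝ᵥ p ≤ c ⬝ᵥ x σ := by
  obtain ⟨y, hy⟩ := h.exists_mult hJ σ c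
  have h1 : ∀ i, 0 ≤ y i := by
    intro i
    by_contra hcon
    have : (eqv hJ σ i).1 ∈ improving (fun σ => c ⬝ᵥ x σ) σ :=
      mem_filter.2 ⟨mem_univ _, (h.improving_iff hy i).2 (not_le.1 hcon)⟩
    rw [hσ] at this
    simp at this
  have h2 : c ⬝ᵥ (p - x σ) ≤ 0 := by
    rw [dot_mult hy]
    apply sum_nonpos
    intro k _
    apply mul_nonpos_of_nonneg_of_nonpos (h1 k)
    rw [dotProduct_sub, (h σ).1 _ (eqv hJ σ k).2]
    have := hp (eqv hJ σ k).1
    linarith
  rw [dotProduct_sub] at h2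
  linarith

/-! ### Counting -/

/-- variables -/
abbrev Var (κ : ι → Type) (J : Type) := (Sigma κ × J) ⊕ J

/-- tight rows, as variables -/
noncomputable def pM (hJ : Fintype.card (Sigma κ) = Fintype.card J + Fintype.card ι)
    (σ : ∀ i, κ i) : Matrix J J (MvPolynomial (Var κ J) ℝ) :=
  Matrix.of fun i j => X (Sum.inl ((eqv hJ σ i).1, j))

/-- the sign of this polynomial tells whether the switch is improving -/
noncomputable def pp (hJ : Fintype.card (Sigma κ) = Fintype.card J + Fintype.card ι)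
    (q : (∀ i, κ i) × J) : MvPolynomial (Var κ J) ℝ :=
  (pM hJ q.1).det * ((pM hJ q.1).updateRow q.2 fun j => X (Sum.inr j)).det

omit [Fintype ι] [DecidableEq ι] [∀ i, Fintype (κ i)] [∀ i, DecidableEq (κ i)] in
lemma totalDegree_det_le (M : Matrix J J (MvPolynomial (Var κ J) ℝ))
    (hM : ∀ i j, (M i j).totalDegree ≤ 1) : M.det.totalDegree ≤ Fintype.card J := by
  rw [det_apply]
  apply (totalDegree_finset_sum _ _).trans
  apply Finset.sup_le
  intro σ _
  refine (totalDegree_smul_le _ _).trans ?_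
  refine (totalDegree_finset_prod _ _).trans ?_
  refine (Finset.sum_le_sum fun i _ => hM _ _).trans ?_
  simp

lemma totalDegree_pp (hJ : Fintype.card (Sigma κ) = Fintype.card J + Fintype.card ι)
    (q : (∀ i, κ i) × J) : (pp hJ q).totalDegree ≤ 2 * Fintype.card J := by
  unfold pp
  refine (totalDegree_mul _ _).trans ?_
  have h1 : (pM hJ q.1).det.totalDegree ≤ Fintype.card J := by
    apply totalDegree_det_le
    intro i j
    simp [pM]
  have h2 : ((pM hJ q.1).updateRow q.2 fun j => X (Sum.inr j)).det.totalDegree ≤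
      Fintype.card J := by
    apply totalDegree_det_le
    intro i j
    rw [updateRow_apply]
    split_ifs
    · simp
    · simp [pM]
  omega

omit [Fintype ι] [DecidableEq ι] [∀ i, Fintype (κ i)] [∀ i, DecidableEq (κ i)] [Fintype J]
  [DecidableEq J] in
/-- the valuation -/
def valu (A : Sigma κ → J → ℝ) (c : J → ℝ) : Var κ J → ℝ
  | Sum.inl p => A p.1 p.2
  | Sum.inr j => c j

lemma eval_pp (hJ : Fintype.card (Sigma κ) = Fintype.card J + Fintype.card ι)
    (A : Sigma κ → J → ℝ) (c : J → ℝ) (q : (∀ i, κ i) × J) :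
    eval (valu A c) (pp hJ q) =
      (rowsM hJ A q.1).det * ((rowsM hJ A q.1).updateRow q.2 c).det := by
  unfold pp
  rw [map_mul, RingHom.map_det, RingHom.map_det]
  congr 2
  · ext i j
    simp [pM, rowsM, valu]
  · ext i j
    simp only [RingHom.mapMatrix_apply, Matrix.map_apply, updateRow_apply]
    split_ifs
    · simp [valu]
    · simp [pM, rowsM, valu]

lemma ProdLP.sign_pp (h : ProdLP A b x)
    (hJ : Fintype.card (Sigma κ) = Fintype.card J + Fintype.card ι) (c : J → ℝ)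
    (σ : ∀ i, κ i) (i : J) :
    (eqv hJ σ i).1 ∈ improving (fun σ => c ⬝ᵥ x σ) σ ↔
      SignType.sign (eval (valu A c) (pp hJ (σ, i))) = -1 := by
  obtain ⟨y, hy⟩ := h.exists_mult hJ σ c
  have e1 : ((rowsM hJ A σ).updateRow i c).det = y i * (rowsM hJ A σ).det := by
    rw [hy, det_updateRow_sum, smul_eq_mul]
  rw [eval_pp, e1, sign_eq_neg_one_iff]
  unfold improving
  rw [mem_filter, h.improving_iff hy i]
  have hd := h.det_ne hJ σ
  have e2 : (rowsM hJ A σ).det * (y i * (rowsM hJ A σ).det) =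
    y i * ((rowsM hJ A σ).det) ^ 2 := by ring
  simp only
  rw [e2]
  have hpos : 0 < (rowsM hJ A σ).det ^ 2 := by positivity
  constructor
  · rintro ⟨-, h1⟩
    exact mul_neg_of_neg_of_pos h1 hpos
  · intro h1
    refine ⟨mem_univ _, ?_⟩
    by_contra hcon
    have := mul_nonneg (not_lt.1 hcon) hpos.le
    linarith

/-- the orientations from linear programs -/
def lpOuts (κ : ι → Type) [∀ i, Fintype (κ i)] [∀ i, DecidableEq (κ i)] (J : Type) [Fintype J] :
    Set (Out κ) :=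
  {s | ∃ (A : Sigma κ → J → ℝ) (b : Sigma κ → ℝ) (c : J → ℝ)
    (x : (∀ i, κ i) → J → ℝ), ProdLP A b x ∧ s = improving fun σ => c ⬝ᵥ x σ}

theorem ncard_lpOuts (hJ : Fintype.card (Sigma κ) = Fintype.card J + Fintype.card ι) :
    (lpOuts κ J).ncard ≤ (4 * (Fintype.card (∀ i, κ i) * Fintype.card J) *
      (2 * Fintype.card J) + 2) ^ (Fintype.card (Sigma κ) * Fintype.card J + Fintype.card J) := by
  classical
  set φ : (Var κ J → ℝ) → ((∀ i, κ i) × J → SignType) :=
    fun v q => SignType.sign (eval v (pp hJ q)) with hφ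
  have h := Pool.Agent.Helper448.Warren.ncard_sign_patterns_le (pp hJ) (2 * Fintype.card J)
    (totalDegree_pp hJ)
  have h1 : lpOuts κ J ⊆ (fun (r : (∀ i, κ i) × J → SignType) (σ : ∀ i, κ i) =>
      univ.filter fun p => ∃ i, (eqv hJ σ i).1 = p ∧ r (σ, i) = -1) '' Set.range φ := by
    rintro s ⟨A, b, c, x, hc, rfl⟩
    refine ⟨φ (valu A c), ⟨_, rfl⟩, ?_⟩
    funext σ
    ext p
    rw [mem_filter]
    constructor
    · rintro ⟨-, i, rfl, hi⟩
      rw [hc.sign_pp hJ]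
      exact hi
    · intro hp
      have hne := diag _ _ _ hp
      refine ⟨mem_univ _, (eqv hJ σ).symm ⟨p, hne⟩, by simp, ?_⟩
      have h5 := (hc.sign_pp hJ c σ ((eqv hJ σ).symm ⟨p, hne⟩)).1 (by simpa using hp)
      exact h5
  have hfin : (Set.range φ).Finite := Set.toFinite _
  refine (Set.ncard_le_ncard h1 (hfin.image _)).trans ?_
  refine (Set.ncard_image_le hfin).trans (h.trans ?_)
  rw [Fintype.card_prod, Fintype.card_sum, Fintype.card_prod]

lemma num_bound (n : ℕ) (hn : 1 ≤ n) : 4 * (2 ^ n * n) * (2 * n) + 2 ≤ 20 ^ n := by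
  induction n, hn using Nat.le_induction with
  | base => norm_num
  | succ n hn ih =>
    have e : 4 * (2 ^ (n + 1) * (n + 1)) * (2 * (n + 1)) + 2 ≤
        8 * (4 * (2 ^ n * n) * (2 * n) + 2) := by
      have h1 : (n + 1) * (n + 1) ≤ 4 * (n * n) := by nlinarith
      have h2 : 2 ^ n * ((n + 1) * (n + 1)) ≤ 2 ^ n * (4 * (n * n)) := Nat.mul_le_mul_left _ h1
      calc 4 * (2 ^ (n + 1) * (n + 1)) * (2 * (n + 1)) + 2
          = 16 * (2 ^ n * ((n + 1) * (n + 1))) + 2 := by ring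
        _ ≤ 16 * (2 ^ n * (4 * (n * n))) + 16 := by omega
        _ = 8 * (4 * (2 ^ n * n) * (2 * n) + 2) := by ring
    calc 4 * (2 ^ (n + 1) * (n + 1)) * (2 * (n + 1)) + 2
        ≤ 8 * (4 * (2 ^ n * n) * (2 * n) + 2) := e
      _ ≤ 8 * 20 ^ n := Nat.mul_le_mul_left _ ih
      _ ≤ 20 ^ (n + 1) := by rw [pow_succ]; omega

lemma card_vertices (hJ : Fintype.card (Sigma κ) = Fintype.card J + Fintype.card ι) :
    Fintype.card (∀ i, κ i) ≤ 2 ^ Fintype.card J := by
  by_cases hne : ∀ i, Nonempty (κ i)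
  · rw [Fintype.card_pi]
    have h1 : ∀ i, Fintype.card (κ i) ≤ 2 ^ (Fintype.card (κ i) - 1) := by
      intro i
      have : 1 ≤ Fintype.card (κ i) := Fintype.card_pos
      obtain ⟨k, hk⟩ : ∃ k, Fintype.card (κ i) = k + 1 := ⟨_, (Nat.sub_add_cancel this).symm⟩
      rw [hk]
      exact Nat.lt_two_pow_self
    calc ∏ i, Fintype.card (κ i) ≤ ∏ i, 2 ^ (Fintype.card (κ i) - 1) :=
          prod_le_prod' fun i _ => h1 i
      _ = 2 ^ (∑ i, (Fintype.card (κ i) - 1)) := prod_pow_eq_pow_sum _ _ _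
      _ ≤ 2 ^ Fintype.card J := by
          apply Nat.pow_le_pow_right (by norm_num)
          have h2 : ∑ i, (Fintype.card (κ i) - 1) + Fintype.card ι = Fintype.card (Sigma κ) := by
            rw [Fintype.card_sigma]
            have : Fintype.card ι = ∑ _i : ι, 1 := by simp
            rw [this, ← sum_add_distrib]
            apply sum_congr rfl
            intro i _
            have : 1 ≤ Fintype.card (κ i) := Fintype.card_pos
            omega
          omega
  · push Not at hne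
    obtain ⟨i, hi⟩ := hne
    have : IsEmpty (∀ i, κ i) := ⟨fun f => hi.elim (f i)⟩
    rw [Fintype.card_eq_zero]
    positivity

lemma card_blocks [∀ i, Nontrivial (κ i)]
    (hJ : Fintype.card (Sigma κ) = Fintype.card J + Fintype.card ι) :
    Fintype.card ι ≤ Fintype.card J := by
  have h1 : 2 * Fintype.card ι ≤ Fintype.card (Sigma κ) := by
    rw [Fintype.card_sigma]
    calc 2 * Fintype.card ι = ∑ _i : ι, 2 := by simp [mul_comm]
      _ ≤ _ := sum_le_sum fun i _ => Fintype.one_lt_card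
  omega

lemma log_lpOuts [∀ i, Nontrivial (κ i)]
    (hJ : Fintype.card (Sigma κ) = Fintype.card J + Fintype.card ι)
    (hn : 1 ≤ Fintype.card J) :
    Real.log (lpOuts κ J).ncard ≤ 9 * (Fintype.card J) ^ 3 := by
  set n := Fintype.card J with hndef
  set N := (lpOuts κ J).ncard with hN
  rcases Nat.eq_zero_or_pos N with h0 | h0
  · rw [h0]; simp
  have hb := card_blocks (J := J) hJ
  have h1 : N ≤ 20 ^ (3 * n ^ 3) := by
    calc N ≤ (4 * (Fintype.card (∀ i, κ i) * n) * (2 * n) + 2) ^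
            (Fintype.card (Sigma κ) * n + n) := ncard_lpOuts hJ
      _ ≤ (4 * (2 ^ n * n) * (2 * n) + 2) ^ (Fintype.card (Sigma κ) * n + n) := by
          apply Nat.pow_le_pow_left
          have := card_vertices (J := J) hJ
          gcongr
      _ ≤ (20 ^ n) ^ (Fintype.card (Sigma κ) * n + n) := Nat.pow_le_pow_left (num_bound n hn) _
      _ = 20 ^ (n * (Fintype.card (Sigma κ) * n + n)) := by rw [← pow_mul]
      _ ≤ 20 ^ (3 * n ^ 3) := by
          apply Nat.pow_le_pow_right (by norm_num)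
          have h2 : Fintype.card (Sigma κ) ≤ 2 * n := by omega
          have h3 : Fintype.card (Sigma κ) * n ≤ 2 * n * n := Nat.mul_le_mul_right _ h2
          have h4 : n * (Fintype.card (Sigma κ) * n) ≤ n * (2 * n * n) := Nat.mul_le_mul_left _ h3
          have : n * n ≤ n * n * n := Nat.le_mul_of_pos_right _ (by omega)
          nlinarith
  have h2 : Real.log N ≤ Real.log ((20 : ℝ) ^ (3 * n ^ 3)) := by
    apply Real.log_le_log (by exact_mod_cast h0)
    exact_mod_cast h1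
  rw [Real.log_pow] at h2
  have h3 : Real.log 20 ≤ 3 := by
    rw [Real.log_le_iff_le_exp (by norm_num)]
    have e1 : Real.exp 3 = Real.exp 1 ^ 3 := by
      rw [← Real.exp_nat_mul]; norm_num
    rw [e1]
    have := Real.exp_one_gt_d9
    have h4 : (2.718 : ℝ) ^ 3 ≤ Real.exp 1 ^ 3 := by
      apply pow_le_pow_left₀ (by norm_num)
      linarith
    norm_num at h4
    linarith
  calc Real.log N ≤ ((3 * n ^ 3 : ℕ) : ℝ) * Real.log 20 := h2
    _ ≤ ((3 * n ^ 3 : ℕ) : ℝ) * 3 := by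
        apply mul_le_mul_of_nonneg_left h3 (by positivity)
    _ = 9 * n ^ 3 := by push_cast; ring

/-- families of functions -/
theorem family [Nonempty ι] [∀ i, Nonempty (κ i)] (d : ℕ)
    (hd : Fintype.card (Sigma κ) = d + Fintype.card ι) (C : Set ((∀ i, κ i) → ℝ))
    (hC : ∀ f ∈ C, LG f) :
    ∃ rule : List ((∀ i, κ i) × Finset (Sigma κ)) → Sigma κ, ∀ f ∈ C, ∀ x₀ : ∀ i, κ i,
      ∃ (T : ℕ) (w : ℕ → ∀ i, κ i), w 0 = x₀ ∧
        (∀ t < T, f (w t) < f (w (t + 1)) ∧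
          w (t + 1) = sw (w t) (rule (hist (improving f) w t))) ∧
        (∀ y, f y ≤ f (w T)) ∧
        (T : ℝ) ≤ d + KK d * Real.log (improving '' C).ncard := by
  classical
  have hfin : (improving '' C).Finite := Set.toFinite _
  obtain ⟨i₀⟩ := ‹Nonempty ι›
  obtain ⟨r₀⟩ := ‹∀ i, Nonempty (κ i)› i₀
  obtain ⟨rule, hrule⟩ := exists_rule ⟨i₀, r₀⟩ d hd hfin.toFinset (by
    intro s hs
    rw [Set.Finite.mem_toFinset] at hs
    obtain ⟨f, hf, rfl⟩ := hs
    exact (hC f hf).nice) (by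
    intro s hs
    rw [Set.Finite.mem_toFinset] at hs
    obtain ⟨f, hf, rfl⟩ := hs
    exact diag f)
  refine ⟨rule, fun f hf x₀ => ?_⟩
  obtain ⟨T, w, h0, h1, h2, h3⟩ := hrule (improving f)
    (by rw [Set.Finite.mem_toFinset]; exact ⟨f, hf, rfl⟩) x₀
  refine ⟨T, w, h0, fun t ht => ⟨?_, (h1 t ht).2⟩, (hC f hf).opt h2, ?_⟩
  · rw [(h1 t ht).2]
    exact (mem_filter.1 (h1 t ht).1).2
  · rw [Set.ncard_eq_toFinset_card _ hfin]
    exact h3

/-- linear programs -/
theorem linear_programs [Nonempty ι] [∀ i, Nontrivial (κ i)]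
    (hJ : Fintype.card (Sigma κ) = Fintype.card J + Fintype.card ι) :
    ∃ rule : List ((∀ i, κ i) × Finset (Sigma κ)) → Sigma κ,
      ∀ (A : Sigma κ → J → ℝ) (b : Sigma κ → ℝ) (c : J → ℝ)
        (x : (∀ i, κ i) → J → ℝ), ProdLP A b x → ∀ σ₀ : ∀ i, κ i,
      ∃ (T : ℕ) (w : ℕ → ∀ i, κ i), w 0 = σ₀ ∧
        (∀ t < T, c ⬝ᵥ x (w t) < c ⬝ᵥ x (w (t + 1)) ∧
          w (t + 1) = sw (w t) (rule (hist (improving fun σ => c ⬝ᵥ x σ) w t))) ∧
        (∀ q : J → ℝ, (∀ p, A p ⬝ᵥ q ≤ b p) → c ⬝ᵥ q ≤ c ⬝ᵥ x (w T)) ∧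
        T ≤ 10 * (Fintype.card J) ^ 6 := by
  classical
  have hfin : (lpOuts κ J).Finite := Set.toFinite _
  obtain ⟨i₀⟩ := ‹Nonempty ι›
  obtain ⟨r₀⟩ : Nonempty (κ i₀) := inferInstance
  obtain ⟨rule, hrule⟩ := exists_rule ⟨i₀, r₀⟩ (Fintype.card J) hJ hfin.toFinset (by
    intro s hs
    rw [Set.Finite.mem_toFinset] at hs
    obtain ⟨A, b, c, x, h, rfl⟩ := hs
    exact (h.lg hJ c).nice) (by
    intro s hs
    rw [Set.Finite.mem_toFinset] at hs
    obtain ⟨A, b, c, x, h, rfl⟩ := hs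
    exact diag _)
  refine ⟨rule, fun A b c x h σ₀ => ?_⟩
  obtain ⟨T, w, h0, h1, h2, h3⟩ := hrule (improving fun σ => c ⬝ᵥ x σ)
    (by rw [Set.Finite.mem_toFinset]; exact ⟨A, b, c, x, h, rfl⟩) σ₀
  refine ⟨T, w, h0, fun t ht => ⟨?_, (h1 t ht).2⟩, fun p hp => h.optimal hJ c h2 p hp, ?_⟩
  · rw [(h1 t ht).2]
    exact (mem_filter.1 (h1 t ht).1).2
  · rw [← Set.ncard_eq_toFinset_card _ hfin] at h3
    set n := Fintype.card J with hn
    have hn1 : 1 ≤ n := by
      have h5 := card_blocks (J := J) hJ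
      have : 0 < Fintype.card ι := Fintype.card_pos_iff.2 ⟨i₀⟩
      omega
    have e1 := log_lpOuts hJ hn1
    rw [← hn] at e1
    have e2 : (KK n : ℝ) ≤ n ^ 3 := by exact_mod_cast KK_le n
    have e3 : (T : ℝ) ≤ n + n ^ 3 * (9 * n ^ 3) := by
      refine h3.trans ?_
      have : (KK n : ℝ) * Real.log (lpOuts κ J).ncard ≤ n ^ 3 * (9 * n ^ 3) :=
        mul_le_mul e2 e1 (Real.log_natCast_nonneg _) (by positivity)
      linarith
    have e4 : (T : ℝ) ≤ ((10 * n ^ 6 : ℕ) : ℝ) := by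
      refine e3.trans ?_
      have e5 : (n : ℝ) ≤ n ^ 6 := by
        exact_mod_cast Nat.le_self_pow (by norm_num) n
      push_cast
      nlinarith
    exact_mod_cast e4

end Pool.Agent.N597.PV.G
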