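import Pool.Agent.N597.PV.GStr
set_option autoImplicit false

/-!
# From objective functions to orientations, and from strategies to pivot rules
-/

namespace Pool.Agent.N597.PV.G

open Finset

variable {ι : Type} [Fintype ι] [DecidableEq ι] {κ : ι → Type} [∀ i, Fintype (κ i)]
  [∀ i, DecidableEq (κ i)]

/-- the improving switches -/
noncomputable def improving (f : (∀ i, κ i) → ℝ) (x : ∀ i, κ i) : Finset (Sigma κ) :=
  univ.filter fun p => f x < f (sw x p)

/-- every local maximum on a face is a maximum on this face -/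
def LG (f : (∀ i, κ i) → ℝ) : Prop :=
  ∀ (W : Finset (Sigma κ)) (x : ∀ i, κ i), (∀ i, (⟨i, x i⟩ : Sigma κ) ∈ W) →
    (∀ p ∈ W, f (sw x p) ≤ f x) → ∀ y : ∀ i, κ i, (∀ i, (⟨i, y i⟩ : Sigma κ) ∈ W) → f y ≤ f x

omit [Fintype ι] [∀ i, Fintype (κ i)] [∀ i, DecidableEq (κ i)] in
lemma sw_same (x : ∀ i, κ i) {p : Sigma κ} (h : x p.1 = p.2) : sw x p = x := by
  funext j
  by_cases hj : j = p.1
  · subst hj; rw [sw_self, h]
  · rw [sw_of_ne _ hj]

lemma diag (f : (∀ i, κ i) → ℝ) (y : ∀ i, κ i) : ∀ p ∈ improving f y, y p.1 ≠ p.2 := by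
  intro p hp h
  have h2 := (mem_filter.1 hp).2
  rw [sw_same _ h] at h2
  exact lt_irrefl _ h2

lemma isTop_iff (f : (∀ i, κ i) → ℝ) (W : Finset (Sigma κ))
    (y : ∀ i, κ i) : IsTop (improving f) W y ↔ InF W y ∧ ∀ p ∈ W, f (sw y p) ≤ f y := by
  unfold IsTop improving
  refine and_congr Iff.rfl (forall₂_congr fun i _ => ?_)
  rw [mem_filter]
  simp

/-- the vertices of the face -/
noncomputable def face (W : Finset (Sigma κ)) : Finset (∀ i, κ i) := by
  classical exact univ.filter fun y => InF W y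

lemma mem_face {W : Finset (Sigma κ)} {y : ∀ i, κ i} : y ∈ face W ↔ InF W y := by
  simp [face]

omit [Fintype ι] [∀ i, Fintype (κ i)] [∀ i, DecidableEq (κ i)] in
lemma InF.sw {W : Finset (Sigma κ)} {y : ∀ i, κ i} {p : Sigma κ}
    (hy : InF W y) (hp : p ∈ W) : InF W (sw y p) := by
  intro i
  by_cases hip : i = p.1
  · subst hip
    rw [sw_self]
    exact hp
  · rw [sw_of_ne _ hip]
    exact hy i

omit [Fintype ι] [∀ i, Fintype (κ i)] in
lemma InF.erase {W : Finset (Sigma κ)} {y : ∀ i, κ i} {p : Sigma κ}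
    (hy : InF W y) (hp : y p.1 ≠ p.2) : InF (W.erase p) y := by
  intro i
  refine mem_erase.2 ⟨fun h => hp ?_, hy i⟩
  subst h
  rfl

lemma LG.nice {f : (∀ i, κ i) → ℝ} (hf : LG f) : Nice (improving f) := by
  classical
  intro W v hv hU
  -- the top
  obtain ⟨z, hzm, hz⟩ := exists_max_image (face W) f ⟨v, mem_face.2 hv⟩
  -- a vertex of the face with the maximal value is a top
  have htop : ∀ (w : ∀ i, κ i), InF W w → f w = f z → IsTop (improving f) W w := by
    intro w hw hwz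
    rw [isTop_iff]
    exact ⟨hw, fun p hp => by rw [hwz]; exact hz _ (mem_face.2 (hw.sw hp))⟩
  -- tops of facets
  have hfac : ∀ (p : Sigma κ) (w y : ∀ i, κ i), IsTop (improving f) (W.erase p) w →
      InF W y → y p.1 ≠ p.2 → f y ≤ f w := by
    intro p w y hw hy hyi
    rw [isTop_iff] at hw
    exact hf (W.erase p) w hw.1 hw.2 y (hy.erase hyi)
  have hwf : ∀ (p : Sigma κ) (w : ∀ i, κ i), IsTop (improving f) (W.erase p) w → InF W w :=
    fun p w hw i => mem_of_mem_erase (hw.1 i)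
  by_cases h1 : ∃ z', InF W z' ∧ f z' = f z ∧ ∃ p ∈ opts W v, z' p.1 ≠ p.2
  · obtain ⟨z', hz', hfz', p, hp, hvp⟩ := h1
    refine ⟨p, hp, fun w hw => Or.inl (htop w (hwf p w hw) ?_)⟩
    exact le_antisymm (hz _ (mem_face.2 (hwf p w hw))) (hfz' ▸ hfac p w z' hw hz' hvp)
  · push Not at h1
    obtain ⟨p0, hp0⟩ := hU
    have hvM : f v < f z := by
      refine lt_of_le_of_ne (hz v (mem_face.2 hv)) fun h => ?_
      exact (mem_filter.1 hp0).2 (h1 v hv h p0 hp0)
    -- the second highest value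
    obtain ⟨y, hym, hy⟩ := exists_max_image ((face W).filter fun y => f y < f z) f
      ⟨v, mem_filter.2 ⟨mem_face.2 hv, hvM⟩⟩
    rw [mem_filter, mem_face] at hym
    have hno : ∀ w, InF W w → f w < f z → ∃ p ∈ W, f w < f (sw w p) := by
      intro w hw hwz
      by_contra hcon
      push Not at hcon
      have := hf W w hw hcon z (mem_face.1 hzm)
      linarith
    have hup : ∀ w, InF W w → f y < f w → f w = f z := by
      intro w hw hyw
      by_contra hcon
      have := hy w (mem_filter.2 ⟨mem_face.2 hw, lt_of_le_of_ne (hz w (mem_face.2 hw)) hcon⟩)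
      linarith
    obtain ⟨q, hq, hlt⟩ := hno y hym.1 hym.2
    have hfl : InF W (sw y q) := hym.1.sw hq
    have hyq : y q.1 ≠ q.2 := by
      intro h
      rw [sw_same _ h] at hlt
      exact lt_irrefl _ hlt
    have hmax := hup _ hfl hlt
    -- `y` and `v` make the same choice at `q.1`
    have hvy : v q.1 = y q.1 := by
      by_contra hne
      have hp' : (⟨q.1, y q.1⟩ : Sigma κ) ∈ opts W v := mem_filter.2 ⟨hym.1 _, hne⟩
      have := h1 _ hfl hmax _ hp'
      simp only [sw_self] at this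
      exact hyq this.symm
    have hvq : v q.1 ≠ q.2 := by rw [hvy]; exact hyq
    refine ⟨q, mem_filter.2 ⟨hq, hvq⟩, fun w hw => ?_⟩
    have hwm := hwf q w hw
    have hyw := hfac q w y hw hym.1 hyq
    rcases (hz w (mem_face.2 hwm)).lt_or_eq with hlt2 | heq
    · right
      obtain ⟨j, hj, hjlt⟩ := hno w hwm hlt2
      have hji : j = q := by
        by_contra hji
        have := ((isTop_iff f _ _).1 hw).2 j (mem_erase.2 ⟨hji, hj⟩)
        linarith
      subst hji
      exact htop _ (hwm.sw hq) (hup _ (hwm.sw hq) (by linarith))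
    · exact Or.inl (htop w hwm heq)

lemma LG.opt {f : (∀ i, κ i) → ℝ} (hf : LG f) {x : ∀ i, κ i} (h : improving f x = ∅)
    (y : ∀ i, κ i) : f y ≤ f x := by
  refine hf univ x (fun i => mem_univ _) (fun i _ => ?_) y (fun i => mem_univ _)
  by_contra hcon
  have : i ∈ improving f x := mem_filter.2 ⟨mem_univ i, not_le.1 hcon⟩
  rw [h] at this
  simp at this

/-- The history of a walk: visited vertices and their improving sets, the last one first. -/
def hist (s : Out κ) (w : ℕ → ∀ i, κ i) : ℕ → List ((∀ i, κ i) × Finset (Sigma κ))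
  | 0 => [(w 0, s (w 0))]
  | t + 1 => (w (t + 1), s (w (t + 1))) :: hist s w t

namespace Str

/-- continue with the observation `o` -/
def adv {α : Type} : Str κ α → Finset (Sigma κ) → Str κ α
  | ret a, _ => ret a
  | go _ k, o => k o

/-- the strategy after a history, if `t₀` is used at the start -/
def state {α : Type} (t₀ : (∀ i, κ i) → Finset (Sigma κ) → Str κ α) (d : Str κ α) :
    List ((∀ i, κ i) × Finset (Sigma κ)) → Str κ α
  | [] => d
  | [p] => t₀ p.1 p.2
  | p :: q :: l => adv (state t₀ d (q :: l)) p.2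

end Str

open Str

/-- the rule of a strategy -/
def ruleOf {α : Type} (t₀ : (∀ i, κ i) → Finset (Sigma κ) → Str κ α) (d : Str κ α) (i₀ : Sigma κ)
    (l : List ((∀ i, κ i) × Finset (Sigma κ))) : Sigma κ :=
  match state t₀ d l with
  | ret _ => i₀
  | go i _ => i

/-- the walk of a rule -/
def walkAux (s : Out κ) (rule : List ((∀ i, κ i) × Finset (Sigma κ)) → Sigma κ)
    (x₀ : ∀ i, κ i) : ℕ → (∀ i, κ i) × List ((∀ i, κ i) × Finset (Sigma κ))
  | 0 => (x₀, [(x₀, s x₀)])
  | t + 1 =>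
    let p := walkAux s rule x₀ t
    let u := sw p.1 (rule p.2)
    (u, (u, s u) :: p.2)

/-- the walk of a rule -/
def walk (s : Out κ) (rule : List ((∀ i, κ i) × Finset (Sigma κ)) → Sigma κ)
    (x₀ : ∀ i, κ i) (t : ℕ) : ∀ i, κ i := (walkAux s rule x₀ t).1

omit [Fintype ι] [∀ i, Fintype (κ i)] [∀ i, DecidableEq (κ i)] in
lemma walkAux_eq (s : Out κ) (rule : List ((∀ i, κ i) × Finset (Sigma κ)) → Sigma κ)
    (x₀ : ∀ i, κ i) (t : ℕ) : (walkAux s rule x₀ t).2 = hist s (walk s rule x₀) t := by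
  induction t with
  | zero => rfl
  | succ t ih =>
    simp only [walkAux, hist, walk]
    rw [ih]

omit [Fintype ι] [∀ i, Fintype (κ i)] [∀ i, DecidableEq (κ i)] in
lemma walk_succ (s : Out κ) (rule : List ((∀ i, κ i) × Finset (Sigma κ)) → Sigma κ)
    (x₀ : ∀ i, κ i) (t : ℕ) : walk s rule x₀ (t + 1) =
      sw (walk s rule x₀ t) (rule (hist s (walk s rule x₀) t)) := by
  rw [← walkAux_eq]; rfl

omit [Fintype ι] [DecidableEq ι] [∀ i, Fintype (κ i)] [∀ i, DecidableEq (κ i)] in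
lemma hist_ne_nil (s : Out κ) (w : ℕ → ∀ i, κ i) (t : ℕ) : hist s w t ≠ [] := by
  cases t <;> simp [hist]

omit [Fintype ι] [DecidableEq ι] [∀ i, Fintype (κ i)] [∀ i, DecidableEq (κ i)] in
lemma state_cons {α : Type} (t₀ : (∀ i, κ i) → Finset (Sigma κ) → Str κ α) (d : Str κ α)
    (p : (∀ i, κ i) × Finset (Sigma κ)) (l : List ((∀ i, κ i) × Finset (Sigma κ)))
    (hl : l ≠ []) : state t₀ d (p :: l) = adv (state t₀ d l) p.2 := by
  cases l with
  | nil => exact absurd rfl hl
  | cons q l => rfl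

omit [Fintype ι] [∀ i, Fintype (κ i)] [∀ i, DecidableEq (κ i)] in
/-- following the strategy -/
lemma follow {α : Type} (s : Out κ) (t₀ : (∀ i, κ i) → Finset (Sigma κ) → Str κ α)
    (d : Str κ α) (i₀ : Sigma κ) (x₀ : ∀ i, κ i) (st : Str κ α) :
    ∀ t : ℕ, state t₀ d (hist s (walk s (ruleOf t₀ d i₀) x₀) t) = st →
      Legal s st (walk s (ruleOf t₀ d i₀) x₀ t) →
      (∀ j < (run s st (walk s (ruleOf t₀ d i₀) x₀ t)).1,
        ruleOf t₀ d i₀ (hist s (walk s (ruleOf t₀ d i₀) x₀) (t + j)) ∈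
          s (walk s (ruleOf t₀ d i₀) x₀ (t + j))) ∧
      walk s (ruleOf t₀ d i₀) x₀ (t + (run s st (walk s (ruleOf t₀ d i₀) x₀ t)).1) =
        (run s st (walk s (ruleOf t₀ d i₀) x₀ t)).2.1 := by
  induction st with
  | ret a =>
    intro t _ _
    simp [run]
  | go i k ih =>
    intro t hst hleg
    set R := ruleOf t₀ d i₀ with hR
    set w := walk s R x₀ with hw
    have hrule : R (hist s w t) = i := by
      rw [hR]; unfold ruleOf; rw [hst]
    have hw1 : w (t + 1) = sw (w t) i := by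
      rw [hw, walk_succ, ← hw, hrule]
    have hst1 : state t₀ d (hist s w (t + 1)) = k (s (w (t + 1))) := by
      simp only [hist]
      rw [state_cons _ _ _ _ (hist_ne_nil _ _ _), hst]
      rfl
    obtain ⟨hl1, hl2⟩ := hleg
    rw [← hw1] at hl2
    obtain ⟨a1, a2⟩ := ih (s (w (t + 1))) (t + 1) hst1 hl2
    simp only [run]
    rw [← hw1]
    refine ⟨fun j hj => ?_, ?_⟩
    · rcases Nat.eq_zero_or_pos j with h0 | h0
      · subst h0
        rw [Nat.add_zero, hrule]
        exact hl1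
      · obtain ⟨j', rfl⟩ : ∃ j', j = j' + 1 := ⟨j - 1, by omega⟩
        have := a1 j' (by omega)
        rw [show t + (j' + 1) = t + 1 + j' by ring]
        exact this
    · rw [show t + ((run s (k (s (w (t + 1)))) (w (t + 1))).1 + 1) =
        t + 1 + (run s (k (s (w (t + 1)))) (w (t + 1))).1 by ring]
      exact a2

/-- **The rule for a finite class of orientations.** -/
theorem exists_rule (p₀ : Sigma κ) (d : ℕ)
    (hd : Fintype.card (Sigma κ) = d + Fintype.card ι) (S : Finset (Out κ))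
    (hS : ∀ s ∈ S, Nice s) (hdiag : ∀ s ∈ S, ∀ y : ∀ i, κ i, ∀ p ∈ s y, y p.1 ≠ p.2) :
    ∃ rule : List ((∀ i, κ i) × Finset (Sigma κ)) → Sigma κ, ∀ s ∈ S, ∀ x₀ : ∀ i, κ i,
      ∃ (T : ℕ) (w : ℕ → ∀ i, κ i), w 0 = x₀ ∧
        (∀ t < T, rule (hist s w t) ∈ s (w t) ∧ w (t + 1) = sw (w t) (rule (hist s w t))) ∧
        s (w T) = ∅ ∧ (T : ℝ) ≤ d + KK d * Real.log S.card := by
  classical
  have h1 : ∀ (v : ∀ i, κ i) (o : Finset (Sigma κ)), ∃ t : Str κ (Finset (Out κ)),
      (S.filter fun s => s v = o).Nonempty → Works d univ v (S.filter fun s => s v = o) t := by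
    intro v o
    by_cases h : (S.filter fun s => s v = o).Nonempty
    · obtain ⟨t, ht⟩ := exists_str d _ univ v (fun i => mem_univ _) (by rw [card_univ, hd])
        (S.filter fun s => s v = o) le_rfl h
        (fun s hs => hS s (mem_filter.1 hs).1)
        (fun s hs s' hs' => by rw [(mem_filter.1 hs).2, (mem_filter.1 hs').2])
        (fun s hs => hdiag s (mem_filter.1 hs).1)
      exact ⟨t, fun _ => ht⟩
    · exact ⟨Str.ret ∅, fun h' => absurd h' h⟩
  choose t₀ ht₀ using h1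
  refine ⟨ruleOf t₀ (Str.ret ∅) p₀, fun s hs x₀ => ?_⟩
  set R := ruleOf t₀ (Str.ret ∅) p₀ with hR
  set w := walk s R x₀ with hw
  have hmem : s ∈ S.filter fun s' => s' x₀ = s x₀ := mem_filter.2 ⟨hs, rfl⟩
  obtain ⟨b1, b2, b3, b4, b5, b6⟩ := ht₀ x₀ (s x₀) ⟨s, hmem⟩ s hmem
  have hw0 : w 0 = x₀ := rfl
  obtain ⟨c1, c2⟩ := follow s t₀ (Str.ret ∅) p₀ x₀ (t₀ x₀ (s x₀)) 0 rfl b1
  rw [← hR, ← hw, hw0] at c1 c2
  simp only [Nat.zero_add] at c1 c2
  refine ⟨(run s (t₀ x₀ (s x₀)) x₀).1, w, hw0, fun t ht => ⟨c1 t ht, ?_⟩, ?_, ?_⟩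
  · rw [hw, walk_succ]
  · rw [c2]
    rw [← disjoint_self_iff_empty, disjoint_left]
    intro i hi _
    exact b2.2 i (mem_univ i) hi
  · refine b6.trans ?_
    have e1 : Real.log (S.filter fun s' => s' x₀ = s x₀).card ≤ Real.log S.card := by
      apply Real.log_le_log
      · exact_mod_cast card_pos.2 ⟨s, hmem⟩
      · exact_mod_cast card_le_card (filter_subset _ _)
    have e2 : 0 ≤ Real.log (run s (t₀ x₀ (s x₀)) x₀).2.2.card := Real.log_natCast_nonneg _
    have e3 : (0 : ℝ) ≤ KK d := by positivity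
    nlinarith

end Pool.Agent.N597.PV.G
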