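import Mathlib
set_option autoImplicit false

/-!
# Walking strategies on products of simplices and the halving argument

A vertex is a choice function `v : ∀ i, κ i`. A switch is a pair `p = ⟨i, r⟩`; it changes `v i` to `r`.
An orientation `s` tells for every vertex which switches are improving.
-/

namespace Pool.Agent.N597.PV.G

open Finset

variable {ι : Type} [Fintype ι] [DecidableEq ι] {κ : ι → Type} [∀ i, Fintype (κ i)]
  [∀ i, DecidableEq (κ i)]

/-- make the switch `p` -/
def sw (v : ∀ i, κ i) (p : Sigma κ) : ∀ i, κ i := Function.update v p.1 p.2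

omit [Fintype ι] [∀ i, Fintype (κ i)] [∀ i, DecidableEq (κ i)] in
lemma sw_self (v : ∀ i, κ i) (p : Sigma κ) : sw v p p.1 = p.2 := by simp [sw]

omit [Fintype ι] [∀ i, Fintype (κ i)] [∀ i, DecidableEq (κ i)] in
lemma sw_of_ne (v : ∀ i, κ i) {p : Sigma κ} {j : ι} (h : j ≠ p.1) : sw v p j = v j := by
  simp [sw, h]

/-- improving switches of every vertex -/
abbrev Out (κ : ι → Type) := (∀ i, κ i) → Finset (Sigma κ)

/-- the vertices of the face with the allowed choices `W` -/
def InF (W : Finset (Sigma κ)) (v : ∀ i, κ i) : Prop := ∀ i, (⟨i, v i⟩ : Sigma κ) ∈ W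

/-- `y` is in the face `W` and has no improving switch in it -/
def IsTop (s : Out κ) (W : Finset (Sigma κ)) (y : ∀ i, κ i) : Prop :=
  InF W y ∧ ∀ p ∈ W, p ∉ s y

/-- the facet without `p` is good: from its top one gets to the top of `W` by at most one switch -/
def GoodDir (s : Out κ) (W : Finset (Sigma κ)) (p : Sigma κ) : Prop :=
  ∀ z, IsTop s (W.erase p) z → IsTop s W z ∨ IsTop s W (sw z p)

/-- the choices of `W` which are not made at `v` -/
def opts (W : Finset (Sigma κ)) (v : ∀ i, κ i) : Finset (Sigma κ) := W.filter fun p => v p.1 ≠ p.2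

/-- the orientations to which the argument applies -/
def Nice (s : Out κ) : Prop :=
  ∀ (W : Finset (Sigma κ)) (v : ∀ i, κ i), InF W v → (opts W v).Nonempty →
    ∃ p ∈ opts W v, GoodDir s W p

/-- Walking strategies: make the switch `p`, observe the improving switches, continue. -/
inductive Str (κ : ι → Type) (α : Type) : Type
  | ret : α → Str κ α
  | go : Sigma κ → (Finset (Sigma κ) → Str κ α) → Str κ α

namespace Str

variable {α β : Type}

/-- number of steps, last vertex, result -/
def run (s : Out κ) : Str κ α → (∀ i, κ i) → ℕ × (∀ i, κ i) × α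
  | ret a, v => (0, v, a)
  | go p k, v =>
    let r := run s (k (s (sw v p))) (sw v p)
    (r.1 + 1, r.2)

/-- all the steps are improving -/
def Legal (s : Out κ) : Str κ α → (∀ i, κ i) → Prop
  | ret _, _ => True
  | go p k, v => p ∈ s v ∧ Legal s (k (s (sw v p))) (sw v p)

/-- composition -/
def bind : Str κ α → (∀ i, κ i) → ((∀ i, κ i) → α → Str κ β) → Str κ β
  | ret a, v, g => g v a
  | go p k, v, g => go p fun o => bind (k o) (sw v p) g

omit [Fintype ι] [∀ i, Fintype (κ i)] [∀ i, DecidableEq (κ i)] in
lemma run_bind (s : Out κ) (t : Str κ α) (v : ∀ i, κ i) (g : (∀ i, κ i) → α → Str κ β) :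
    run s (bind t v g) v =
      ((run s t v).1 + (run s (g (run s t v).2.1 (run s t v).2.2) (run s t v).2.1).1,
        (run s (g (run s t v).2.1 (run s t v).2.2) (run s t v).2.1).2) := by
  induction t generalizing v with
  | ret a => simp [bind, run]
  | go i k ih =>
    simp only [bind, run]
    rw [ih]
    simp only
    rw [Prod.mk.injEq]
    exact ⟨by omega, rfl⟩

omit [Fintype ι] [∀ i, Fintype (κ i)] [∀ i, DecidableEq (κ i)] in
lemma legal_bind (s : Out κ) (t : Str κ α) (v : ∀ i, κ i) (g : (∀ i, κ i) → α → Str κ β)
    (h1 : Legal s t v) (h2 : Legal s (g (run s t v).2.1 (run s t v).2.2) (run s t v).2.1) :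
    Legal s (bind t v g) v := by
  induction t generalizing v with
  | ret a => simpa [bind, run] using h2
  | go i k ih =>
    simp only [bind, Legal] at *
    exact ⟨h1.1, ih _ _ h1.2 h2⟩

end Str

open Str

/-- sum of squares -/
def KK (m : ℕ) : ℕ := ∑ j ∈ range (m + 1), j ^ 2

lemma KK_succ (m : ℕ) : KK (m + 1) = KK m + (m + 1) ^ 2 := by
  simp [KK, sum_range_succ]

lemma KK_le (n : ℕ) : KK n ≤ n ^ 3 := by
  unfold KK
  rw [sum_range_succ']
  simp only [ne_eq, OfNat.ofNat_ne_zero, not_false_eq_true, zero_pow, add_zero]
  calc ∑ k ∈ range n, (k + 1) ^ 2 ≤ ∑ k ∈ range n, n ^ 2 := by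
        apply sum_le_sum
        intro k hk
        exact Nat.pow_le_pow_left (by rw [mem_range] at hk; omega) 2
    _ = n ^ 3 := by rw [sum_const, card_range, smul_eq_mul]; ring

/-- the strategy `t` works for all orientations in the class `S` -/
def Works (m : ℕ) (W : Finset (Sigma κ)) (v : ∀ i, κ i) (S : Finset (Out κ))
    (t : Str κ (Finset (Out κ))) : Prop :=
  ∀ s ∈ S, Legal s t v ∧ IsTop s W (run s t v).2.1 ∧ s ∈ (run s t v).2.2 ∧
    (run s t v).2.2 ⊆ S ∧
    (∀ s' ∈ (run s t v).2.2, run s' t v = run s t v ∧ s' (run s t v).2.1 = s (run s t v).2.1) ∧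
    ((run s t v).1 : ℝ) ≤ m + KK m * (Real.log S.card - Real.log (run s t v).2.2.card)

/-- one element of `opts W v` is good for many -/
lemma exists_dir (W : Finset (Sigma κ)) (v : ∀ i, κ i) (hv : InF W v) (hU : (opts W v).Nonempty)
    (S : Finset (Out κ)) (hS : ∀ s ∈ S, Nice s) : ∃ p ∈ opts W v, ∃ G ⊆ S,
      (∀ s ∈ G, GoodDir s W p) ∧ S.card ≤ (opts W v).card * G.card := by
  classical
  set U := opts W v with hUdef
  by_contra hcon
  push Not at hcon
  have h1 : ∀ p ∈ U, U.card * (S.filter fun s => GoodDir s W p).card < S.card := by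
    intro p hp
    exact hcon p hp _ (filter_subset _ _) (fun s hs => (mem_filter.1 hs).2)
  have h2 : S ⊆ U.biUnion fun p => S.filter fun s => GoodDir s W p := by
    intro s hs
    obtain ⟨p, hp, hg⟩ := hS s hs W v hv hU
    exact mem_biUnion.2 ⟨p, hp, mem_filter.2 ⟨hs, hg⟩⟩
  have h3 : S.card ≤ ∑ p ∈ U, (S.filter fun s => GoodDir s W p).card :=
    (card_le_card h2).trans card_biUnion_le
  have h4 : U.card * S.card ≤ ∑ p ∈ U, U.card * (S.filter fun s => GoodDir s W p).card := by
    rw [← mul_sum]
    exact Nat.mul_le_mul_left _ h3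
  have h5 : ∑ p ∈ U, U.card * (S.filter fun s => GoodDir s W p).card < ∑ _p ∈ U, S.card :=
    sum_lt_sum_of_nonempty hU h1
  rw [sum_const, smul_eq_mul] at h5
  omega

lemma log_gap {a b m : ℕ} (hm : 1 ≤ m) (hb : 1 ≤ b) (h : m * b + a ≤ m * a) :
    (1 : ℝ) ≤ m * (Real.log a - Real.log b) := by
  have ha : 1 ≤ a := by
    by_contra hcon
    have : a = 0 := by omega
    subst this
    have : 1 ≤ m * b := Nat.one_le_iff_ne_zero.2 (by positivity)
    omega
  have hm0 : (0 : ℝ) < m := by exact_mod_cast hm
  have ha0 : (0 : ℝ) < a := by exact_mod_cast ha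
  have hb0 : (0 : ℝ) < b := by exact_mod_cast hb
  have h1 : Real.log b - Real.log a = Real.log (b / a) := by
    rw [Real.log_div hb0.ne' ha0.ne']
  have h2 : Real.log (b / a) ≤ b / a - 1 := Real.log_le_sub_one_of_pos (by positivity)
  have h3 : (b : ℝ) / a ≤ 1 - 1 / m := by
    rw [div_le_iff₀ ha0]
    have : (m : ℝ) * b + a ≤ m * a := by exact_mod_cast h
    have h4 : (1 - 1 / (m : ℝ)) * a = (m * a - a) / m := by
      field_simp
    rw [h4, le_div_iff₀ hm0]
    linarith
  have h5 : Real.log a - Real.log b ≥ 1 / m := by linarith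
  calc (1 : ℝ) = m * (1 / m) := by field_simp
    _ ≤ m * (Real.log a - Real.log b) := by
        apply mul_le_mul_of_nonneg_left h5 hm0.le

omit [∀ i, Fintype (κ i)] in
lemma card_opts (W : Finset (Sigma κ)) (v : ∀ i, κ i) (hv : InF W v) :
    (opts W v).card + Fintype.card ι = W.card := by
  have h1 : (W.filter fun p => v p.1 = p.2) = univ.image fun i => (⟨i, v i⟩ : Sigma κ) := by
    ext p
    rw [mem_filter, mem_image]
    constructor
    · rintro ⟨_, h⟩
      exact ⟨p.1, mem_univ _, by rw [h]⟩
    · rintro ⟨i, _, rfl⟩
      exact ⟨hv i, rfl⟩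
  have h2 : (W.filter fun p => v p.1 = p.2).card = Fintype.card ι := by
    rw [h1, card_image_of_injective, card_univ]
    intro i j hij
    exact congrArg Sigma.fst hij
  have h3 : (W.filter fun p => v p.1 = p.2).card + (opts W v).card = W.card :=
    card_filter_add_card_filter_not (s := W) (fun p => v p.1 = p.2)
  omega

/-- **Main lemma.** -/
theorem exists_str : ∀ (m : ℕ) (N : ℕ) (W : Finset (Sigma κ)) (v : ∀ i, κ i), InF W v →
    W.card = m + Fintype.card ι → ∀ (S : Finset (Out κ)),
    S.card ≤ N → S.Nonempty → (∀ s ∈ S, Nice s) →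
    (∀ s ∈ S, ∀ s' ∈ S, s v = s' v) → (∀ s ∈ S, ∀ y : ∀ i, κ i, ∀ p ∈ s y, y p.1 ≠ p.2) →
    ∃ t, Works m W v S t := by
  classical
  intro m
  induction m with
  | zero =>
    intro N W v hWv hW S hN hS hnice hv hdiag
    refine ⟨ret S, fun s hs => ?_⟩
    have h0 : opts W v = ∅ := by
      rw [← card_eq_zero]
      have := card_opts W v hWv
      omega
    simp only [run, Legal]
    refine ⟨trivial, ⟨hWv, fun p hp hps => ?_⟩, hs, Subset.refl _,
      fun s' hs' => ⟨trivial, hv _ hs' _ hs⟩, ?_⟩
    · have : p ∈ opts W v := mem_filter.2 ⟨hp, hdiag s hs v p hps⟩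
      rw [h0] at this
      simp at this
    · simp
  | succ m ihm =>
    intro N
    induction N with
    | zero =>
      intro W v hWv hW S hN hS
      rw [Nat.le_zero, card_eq_zero] at hN
      subst hN
      exact absurd hS not_nonempty_empty
    | succ N ihN =>
      intro W v hWv hW S hN hS hnice hv hdiag
      have hcU : (opts W v).card = m + 1 := by
        have := card_opts W v hWv
        omega
      have hUne : (opts W v).Nonempty := by
        rw [← card_pos]; omega
      obtain ⟨p, hp, G, hGS, hG, hcard⟩ := exists_dir W v hWv hUne S hnice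
      obtain ⟨hpW, hpv⟩ := mem_filter.1 hp
      have hW' : (W.erase p).card = m + Fintype.card ι := by rw [card_erase_of_mem hpW, hW]; omega
      have hWv' : InF (W.erase p) v := by
        intro i
        refine mem_erase.2 ⟨fun h => hpv ?_, hWv i⟩
        subst h
        rfl
      obtain ⟨t1, ht1⟩ := ihm S.card (W.erase p) v hWv' hW' S le_rfl hS hnice hv hdiag
      -- the continuation
      have key : ∀ (z : ∀ i, κ i) (S' : Finset (Out κ)), ∃ g : Str κ (Finset (Out κ)),
          S' ⊆ S → (∀ s ∈ S', IsTop s (W.erase p) z) → (∀ s ∈ S', ∀ s' ∈ S', s z = s' z) →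
          ∀ s ∈ S', Legal s g z ∧ IsTop s W (run s g z).2.1 ∧ s ∈ (run s g z).2.2 ∧
            (run s g z).2.2 ⊆ S' ∧
            (∀ s' ∈ (run s g z).2.2, run s' g z = run s g z ∧
              s' (run s g z).2.1 = s (run s g z).2.1) ∧
            ((run s g z).1 : ℝ) ≤ 1 + KK (m + 1) * (Real.log S.card -
              Real.log (run s g z).2.2.card) - KK m * (Real.log S.card - Real.log S'.card) := by
        intro z S'
        by_cases hSS : S' ⊆ S ∧ (∀ s ∈ S', IsTop s (W.erase p) z) ∧
            (∀ s ∈ S', ∀ s' ∈ S', s z = s' z) ∧ S'.Nonempty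
        swap
        · refine ⟨ret ∅, fun h1 h2 h3 s hs => ?_⟩
          exact absurd ⟨h1, h2, h3, ⟨s, hs⟩⟩ hSS
        obtain ⟨h1, h2, h3, s0, hs0⟩ := hSS
        have hlogS' : Real.log S'.card ≤ Real.log S.card := by
          apply Real.log_le_log
          · exact_mod_cast card_pos.2 ⟨s0, hs0⟩
          · exact_mod_cast card_le_card h1
        have hKK : (KK (m + 1) : ℝ) = KK m + (m + 1) ^ 2 := by
          rw [KK_succ]; push_cast; ring
        have hzW : InF W z := fun i => mem_of_mem_erase ((h2 s0 hs0).1 i)
        by_cases hi0 : p ∈ s0 z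
        swap
        · -- the top of the facet is the top
          refine ⟨ret S', fun _ _ _ s hs => ?_⟩
          simp only [run, Legal]
          have hsz : s z = s0 z := h3 s hs s0 hs0
          refine ⟨trivial, ⟨hzW, ?_⟩, hs, Subset.refl _, fun s' hs' => ⟨trivial, h3 _ hs' _ hs⟩, ?_⟩
          · intro q hq
            by_cases hqp : q = p
            · subst hqp; rw [hsz]; exact hi0
            · exact (h2 s hs).2 q (mem_erase.2 ⟨hqp, hq⟩)
          · rw [hKK]
            push_cast
            have : 0 ≤ ((m : ℝ) + 1) ^ 2 * (Real.log S.card - Real.log S'.card) := by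
              apply mul_nonneg (by positivity); linarith
            nlinarith
        -- step `p`
        have hz' : ∀ s ∈ S', p ∈ s z := fun s hs => by rw [h3 s hs s0 hs0]; exact hi0
        set u := sw z p with hu
        have huW : InF W u := by
          intro i
          by_cases hip : i = p.1
          · subst hip
            rw [hu, sw_self]
            exact hpW
          · rw [hu, sw_of_ne _ hip]
            exact hzW i
        set F : Finset (Sigma κ) → Finset (Out κ) := fun o => S'.filter fun s => s u = o with hF
        have hagree : ∀ o, ∀ s ∈ F o, ∀ s' ∈ F o, s u = s' u := by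
          intro o s hs s' hs'
          rw [(mem_filter.1 hs).2, (mem_filter.1 hs').2]
        have hsmall : ∀ o, ¬ Disjoint o W → (S.card : ℕ) + (m + 1) * (F o).card ≤
            (m + 1) * S.card := by
          intro o ho
          have e1 : F o ⊆ S \ G := by
            intro s hs
            rw [mem_sdiff]
            refine ⟨h1 (mem_filter.1 hs).1, fun hsG => ?_⟩
            rcases hG s hsG z (h2 s (mem_filter.1 hs).1) with h | h
            · exact h.2 p hpW (hz' s (mem_filter.1 hs).1)
            · apply ho
              rw [disjoint_left]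
              intro j hj1 hj2
              apply h.2 j hj2
              rw [← hu, (mem_filter.1 hs).2]
              exact hj1
          have e2 : (F o).card + G.card ≤ S.card := by
            have := card_le_card e1
            rw [card_sdiff_of_subset hGS] at this
            have := card_le_card hGS
            omega
          rw [hcU] at hcard
          calc S.card + (m + 1) * (F o).card ≤ (m + 1) * G.card + (m + 1) * (F o).card := by omega
            _ = (m + 1) * ((F o).card + G.card) := by ring
            _ ≤ (m + 1) * S.card := Nat.mul_le_mul_left _ e2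
        have hrec : ∀ o, ∃ t, ¬ Disjoint o W → (F o).Nonempty → Works (m + 1) W u (F o) t := by
          intro o
          by_cases hd : ¬ Disjoint o W ∧ (F o).Nonempty
          · have hs := hsmall o hd.1
            have hlt : (F o).card < S.card := by
              by_contra hcon
              have : S.card ≤ (F o).card := not_lt.1 hcon
              have h5 := Nat.mul_le_mul_left (m + 1) this
              have : 1 ≤ S.card := card_pos.2 hS
              omega
            obtain ⟨t, ht⟩ := ihN W u huW hW (F o) (by omega) hd.2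
              (fun s hs => hnice s (h1 (mem_filter.1 hs).1)) (hagree o)
              (fun s hs => hdiag s (h1 (mem_filter.1 hs).1))
            exact ⟨t, fun _ _ => ht⟩
          · exact ⟨ret ∅, fun h1 h2 => absurd ⟨h1, h2⟩ hd⟩
        choose tt htt using hrec
        refine ⟨go p fun o => if Disjoint o W then ret (F o) else tt o, fun _ _ _ s hs => ?_⟩
        have hsF : s ∈ F (s u) := mem_filter.2 ⟨hs, rfl⟩
        have hlogF : Real.log (F (s u)).card ≤ Real.log S'.card := by
          apply Real.log_le_log
          · exact_mod_cast card_pos.2 ⟨s, hsF⟩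
          · exact_mod_cast card_le_card (filter_subset _ _)
        have hbase : KK m * (Real.log S.card - Real.log S'.card) ≤
            KK m * (Real.log S.card - Real.log (F (s u)).card) := by
          apply mul_le_mul_of_nonneg_left _ (by positivity)
          linarith
        simp only [run, Legal]
        rw [← hu]
        by_cases hd : Disjoint (s u) W
        · rw [if_pos hd]
          simp only [run, Legal]
          refine ⟨⟨hz' s hs, trivial⟩, ⟨huW, fun j hj1 hj2 => disjoint_left.1 hd hj2 hj1⟩, hsF,
            filter_subset _ _, fun s' hs' => ?_, ?_⟩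
          · have e : s' u = s u := (mem_filter.1 hs').2
            rw [e, if_pos hd]
            simp [run]
          · rw [hKK]
            push_cast
            have : 0 ≤ ((m : ℝ) + 1) ^ 2 * (Real.log S.card - Real.log (F (s u)).card) := by
              apply mul_nonneg (by positivity); linarith
            nlinarith
        · rw [if_neg hd]
          have hw := htt (s u) hd ⟨s, hsF⟩ s hsF
          obtain ⟨w1, w2, w3, w4, w5, w6⟩ := hw
          refine ⟨⟨hz' s hs, w1⟩, w2, w3, w4.trans (filter_subset _ _), fun s' hs' => ?_, ?_⟩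
          · have e : s' u = s u := (mem_filter.1 (w4 hs')).2
            rw [e, if_neg hd]
            obtain ⟨a1, a2⟩ := w5 s' hs'
            rw [a1]
            exact ⟨rfl, a2⟩
          · have hs6 := hsmall (s u) hd
            have hgap := log_gap (a := S.card) (b := (F (s u)).card) (m := m + 1)
              (by omega) (card_pos.2 ⟨s, hsF⟩) (by omega)
            rw [hKK] at *
            push_cast at *
            set x := Real.log S.card - Real.log (F (s u)).card with hx
            have e1 : ((m : ℝ) + 1) ≤ (m + 1) ^ 2 * x := by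
              calc ((m : ℝ) + 1) = (m + 1) * 1 := by ring
                _ ≤ (m + 1) * ((m + 1) * x) := by
                    apply mul_le_mul_of_nonneg_left hgap (by positivity)
                _ = _ := by ring
            have e2 : ((KK m : ℝ) + (m + 1) ^ 2) * (Real.log (F (s u)).card -
                Real.log (run s (tt (s u)) u).2.2.card) = (KK m + (m + 1) ^ 2) *
                (Real.log S.card - Real.log (run s (tt (s u)) u).2.2.card) -
                (KK m * x + (m + 1) ^ 2 * x) := by
              rw [hx]; ring
            rw [e2] at w6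
            linarith
      choose g hg using key
      refine ⟨bind t1 v g, fun s hs => ?_⟩
      obtain ⟨w1, w2, w3, w4, w5, w6⟩ := ht1 s hs
      set r := run s t1 v with hr
      have h2 : ∀ s' ∈ r.2.2, IsTop s' (W.erase p) r.2.1 := by
        intro s' hs'
        have := (ht1 s' (w4 hs')).2.1
        rw [(w5 s' hs').1] at this
        exact this
      have h3 : ∀ s' ∈ r.2.2, ∀ s'' ∈ r.2.2, s' r.2.1 = s'' r.2.1 := by
        intro s' hs' s'' hs''
        rw [(w5 s' hs').2, (w5 s'' hs'').2]
      obtain ⟨q1, q2, q3, q4, q5, q6⟩ := hg r.2.1 r.2.2 w4 h2 h3 s w3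
      have hrun := run_bind s t1 v g
      rw [← hr] at hrun
      refine ⟨legal_bind s t1 v g w1 (by rw [← hr]; exact q1), ?_⟩
      rw [hrun]
      refine ⟨q2, q3, q4.trans w4, fun s' hs' => ?_, ?_⟩
      · have hs'2 : s' ∈ r.2.2 := q4 hs'
        have hrun' := run_bind s' t1 v g
        rw [(w5 s' hs'2).1] at hrun'
        rw [hrun']
        obtain ⟨a1, a2⟩ := q5 s' hs'
        rw [a1]
        exact ⟨rfl, a2⟩
      · push_cast
        set rr := run s (g r.2.1 r.2.2) r.2.1
        push_cast at w6 q6
        linarith

end Pool.Agent.N597.PV.G
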